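import Mathlib

/-!
The system `5^4 x₁ + 3^6 y₁ = w₁ z₁^12`, `(5^4 - 3^6) x₂ + 3^6 y₂ = w₂ z₂^12` is not partition
regular over the nonzero integers.  Colour `n = 3^v u` with `3 ∤ u` by `(v mod 12, u mod 9)`.
-/

namespace Pool.Agent.Results.MP_900fba_co.NotPartitionRegular

/-- the power of `3` in `n` -/
private def v (n : ℤ) : ℕ := padicValInt 3 n

/-- the part of `n` prime to `3` -/
private def u (n : ℤ) : ℤ := n / 3 ^ v n

private lemma eq_pow_mul {n : ℤ} : n = 3 ^ v n * u n := by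
  unfold u
  have h : (3 : ℤ) ^ v n ∣ n := by
    have := padicValInt_dvd (p := 3) n
    simpa [v] using this
  exact (Int.mul_ediv_cancel' h).symm

private lemma not_dvd_u {n : ℤ} (hn : n ≠ 0) : ¬ (3 : ℤ) ∣ u n := by
  intro h
  obtain ⟨k, hk⟩ := h
  have : Fact (Nat.Prime 3) := ⟨by norm_num⟩
  have h2 : (3 : ℤ) ^ (v n + 1) ∣ n := by
    refine ⟨k, ?_⟩
    conv_lhs => rw [eq_pow_mul (n := n), hk]
    ring
  have h3 := (padicValInt_dvd_iff (p := 3) (v n + 1) n).1 (by exact_mod_cast h2)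
  rcases h3 with h3 | h3
  · exact hn h3
  · unfold v at h3; omega

/-- comparison of the `3`-parts in `3^A * U = 3^B * V` -/
private lemma exponents_eq {A B : ℕ} {U V : ℤ} (hU : ¬ (3 : ℤ) ∣ U) (hV : ¬ (3 : ℤ) ∣ V)
    (h : 3 ^ A * U = 3 ^ B * V) : A = B ∧ U = V := by
  rcases lt_trichotomy A B with hlt | heq | hgt
  · exfalso
    apply hU
    obtain ⟨k, rfl⟩ := Nat.exists_eq_add_of_lt hlt
    have h3 : (3 : ℤ) ^ A ≠ 0 := by positivity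
    have : U = 3 * (3 ^ k * V) := by
      apply mul_left_cancel₀ h3
      rw [h]; ring
    exact ⟨_, this⟩
  · subst heq
    have h3 : (3 : ℤ) ^ A ≠ 0 := by positivity
    exact ⟨rfl, mul_left_cancel₀ h3 h⟩
  · exfalso
    apply hV
    obtain ⟨k, rfl⟩ := Nat.exists_eq_add_of_lt hgt
    have h3 : (3 : ℤ) ^ B ≠ 0 := by positivity
    have : V = 3 * (3 ^ k * U) := by
      apply mul_left_cancel₀ h3
      rw [← h]; ring
    exact ⟨_, this⟩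

private lemma zmod9 : ∀ x : ZMod 9, (625 : ZMod 9) * x = x * x ^ 12 → (3 : ZMod 9) * x = 0 := by
  decide

private lemma three_dvd_of {n : ℤ} (h : (3 : ZMod 9) * (n : ZMod 9) = 0) : (3 : ℤ) ∣ n := by
  have h1 : ((3 * n : ℤ) : ZMod 9) = 0 := by push_cast; exact h
  rw [ZMod.intCast_zmod_eq_zero_iff_dvd] at h1 
  omega

/-- arithmetic core: no solution of the first equation with prescribed `3`-adic data -/
private lemma core {a b c d : ℕ} {U T S Q : ℤ} (hU : ¬ (3 : ℤ) ∣ U) (hT : ¬ (3 : ℤ) ∣ T)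
    (hS : ¬ (3 : ℤ) ∣ S) (hQ : ¬ (3 : ℤ) ∣ Q) (hab : a % 12 = b % 12) (hac : a % 12 = c % 12)
    (hUS : (U : ZMod 9) = S) (hUQ : (U : ZMod 9) = Q) :
    5 ^ 4 * (3 ^ a * U) + 3 ^ 6 * (3 ^ b * T) ≠ (3 ^ c * S) * (3 ^ d * Q) ^ 12 := by
  intro h
  have h3p : Prime (3 : ℤ) := Int.prime_three
  have hR : (3 ^ c * S) * (3 ^ d * Q) ^ 12 = 3 ^ (c + 12 * d) * (S * Q ^ 12) := by ring
  have hRnd : ¬ (3 : ℤ) ∣ S * Q ^ 12 := by
    intro hd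
    rcases h3p.dvd_or_dvd hd with hd | hd
    · exact hS hd
    · exact hQ (h3p.dvd_of_dvd_pow hd)
  rcases lt_or_ge a (b + 6) with hlt | hge
  · -- the term with coefficient `5 ^ 4` dominates
    obtain ⟨k, hk⟩ : ∃ k, b + 6 = a + 2 + k := ⟨b + 6 - a - 2, by omega⟩
    have hL : 5 ^ 4 * (3 ^ a * U) + 3 ^ 6 * (3 ^ b * T)
        = 3 ^ a * (5 ^ 4 * U + 9 * (3 ^ k * T)) := by
      have e1 : (3 : ℤ) ^ 6 * (3 ^ b * T) = 3 ^ (b + 6) * T := by ring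
      rw [e1, hk]; ring
    have hLnd : ¬ (3 : ℤ) ∣ 5 ^ 4 * U + 9 * (3 ^ k * T) := by
      intro hd
      have : (3 : ℤ) ∣ U := by
        generalize 3 ^ k * T = m at hd
        omega
      exact hU this
    rw [hL, hR] at h
    have h2 := (exponents_eq hLnd hRnd h).2
    have h4 : ((5 ^ 4 * U + 9 * (3 ^ k * T) : ℤ) : ZMod 9) = ((S * Q ^ 12 : ℤ) : ZMod 9) := by
      rw [h2]
    push_cast at h4
    have h9 : (9 : ZMod 9) = 0 := by decide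
    rw [← hUS, ← hUQ, h9, zero_mul, add_zero] at h4
    exact hU (three_dvd_of (zmod9 _ h4))
  · -- the term with coefficient `3 ^ 6` dominates
    obtain ⟨k, hk⟩ : ∃ k, a = b + 6 + 1 + k := ⟨a - (b + 6 + 1), by omega⟩
    have hL : 5 ^ 4 * (3 ^ a * U) + 3 ^ 6 * (3 ^ b * T)
        = 3 ^ (b + 6) * (T + 3 * (5 ^ 4 * 3 ^ k * U)) := by
      rw [hk]; ring
    have hLnd : ¬ (3 : ℤ) ∣ T + 3 * (5 ^ 4 * 3 ^ k * U) := by
      intro hd
      have : (3 : ℤ) ∣ T := by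
        generalize 5 ^ 4 * 3 ^ k * U = m at hd
        omega
      exact hT this
    rw [hL, hR] at h
    have h2 := (exponents_eq hLnd hRnd h).1
    omega

theorem result :
    ∃ (r : ℕ) (c : {n : ℤ // n ≠ 0} → Fin r),
      ∀ x₁ y₁ w₁ z₁ x₂ y₂ w₂ z₂ : {n : ℤ // n ≠ 0},
        (c x₁ = c y₁ ∧ c x₁ = c w₁ ∧ c x₁ = c z₁ ∧
          c x₁ = c x₂ ∧ c x₁ = c y₂ ∧ c x₁ = c w₂ ∧ c x₁ = c z₂) →
        ¬ ((5 ^ 4 * (x₁ : ℤ) + 3 ^ 6 * (y₁ : ℤ) = (w₁ : ℤ) * (z₁ : ℤ) ^ 12) ∧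
          ((5 ^ 4 - 3 ^ 6) * (x₂ : ℤ) + 3 ^ 6 * (y₂ : ℤ) = (w₂ : ℤ) * (z₂ : ℤ) ^ 12)) := by
  refine ⟨Fintype.card (ZMod 12 × ZMod 9),
    fun n => Fintype.equivFin (ZMod 12 × ZMod 9) ((v n.1 : ZMod 12), (u n.1 : ZMod 9)), ?_⟩
  rintro ⟨x, hx⟩ ⟨y, hy⟩ ⟨w, hw⟩ ⟨z, hz⟩ _ _ _ _ ⟨hxy, hxw, hxz, -⟩ ⟨h, -⟩
  simp only [EmbeddingLike.apply_eq_iff_eq, Prod.mk.injEq] at hxy hxw hxz
  have hvy : v x % 12 = v y % 12 := (ZMod.natCast_eq_natCast_iff' (v x) (v y) 12).1 hxy.1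
  have hvw : v x % 12 = v w % 12 := (ZMod.natCast_eq_natCast_iff' (v x) (v w) 12).1 hxw.1
  refine core (a := v x) (b := v y) (c := v w) (d := v z) (not_dvd_u hx) (not_dvd_u hy)
    (not_dvd_u hw) (not_dvd_u hz) hvy hvw hxw.2 hxz.2 ?_
  rw [← eq_pow_mul, ← eq_pow_mul, ← eq_pow_mul, ← eq_pow_mul]
  exact h

end Pool.Agent.Results.MP_900fba_co.NotPartitionRegular
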